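import Mathlib

namespace Pool.Agent.Results.MP_5f76cf_al.Counter
open MeasureTheory Set

/-- every continuous action on a nonempty compact Hausdorff space has an invariant Borel
probability measure -/
def Amenable (G : Type) [Group G] [TopologicalSpace G] : Prop :=
  ∀ (X : Type) [TopologicalSpace X] [CompactSpace X] [T2Space X] [Nonempty X] [MulAction G X]
    [ContinuousSMul G X] [MeasurableSpace X] [BorelSpace X], ∃ μ : Measure X,
    IsProbabilityMeasure μ ∧ ∀ (g : G) (s : Set X), MeasurableSet s → μ ((g • ·) ⁻¹' s) = μ s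

/-- left-invariant metric -/
def LeftInv {G : Type} [Group G] (m : MetricSpace G) : Prop :=
  ∀ h g f : G, m.dist (h * g) (h * f) = m.dist g f

/-- `d` is left-invariant and dominates, up to affine bounds, every left-invariant metric inducing
the same topology -/
def Maximal {G : Type} [Group G] (d : MetricSpace G) : Prop :=
  LeftInv d ∧ ∀ m : MetricSpace G, m.toUniformSpace.toTopologicalSpace =
    d.toUniformSpace.toTopologicalSpace → LeftInv m → ∃ K : ℝ, ∀ g h, m.dist g h ≤ K * d.dist g h + K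

def Γ : Type := FreeGroup Bool
instance : Group Γ := inferInstanceAs (Group (FreeGroup Bool))
instance : Countable Γ := inferInstanceAs (Countable (FreeGroup Bool))
open Classical in
noncomputable instance : MetricSpace Γ where
  dist x y := if x = y then 0 else 1
  dist_self := by simp
  dist_comm := by simp [eq_comm]
  dist_triangle x y z := by split_ifs <;> simp_all
  eq_of_dist_eq_zero := by simp
instance : DiscreteTopology Γ :=
  .of_forall_le_dist one_pos fun x y h => (if_neg h : dist x y = 1).ge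

def Z : Type := ℤ
instance : AddCommGroup Z := inferInstanceAs (AddCommGroup ℤ)
instance : Countable Z := inferInstanceAs (Countable ℤ)
noncomputable instance : MetricSpace Z :=
  MetricSpace.induced (fun k : ℤ => (2 * k : ℝ)) (fun a b : ℤ => by simp; exact id) inferInstance
theorem dz (k l : ℤ) : @dist Z _ k l = 2 * |(k : ℝ) - l| := by
  show |(2 * k : ℝ) - 2 * l| = _
  rw [← mul_sub, abs_mul, abs_two]
theorem dz2 {k l : ℤ} (h : k ≠ l) : 2 ≤ @dist Z _ k l := by
  have : (1 : ℝ) ≤ |(k : ℝ) - l| := by exact_mod_cast Int.one_le_abs (sub_ne_zero.2 h)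
  rw [dz]; linarith
instance : DiscreteTopology Z := .of_forall_le_dist two_pos fun _ _ => dz2

def P : Type := ℤ → Γ
noncomputable instance : MetricSpace P := PiCountable.metricSpace (F := fun _ : ℤ => Γ)
theorem dp (x y : P) : dist x y ≤ 2 :=
  (edist_le_ofReal two_pos.le).1 (by
    rw [ENNReal.ofReal_ofNat]
    exact PiCountable.edist_le_two (F := fun _ : ℤ => Γ) (x := x) (y := y))

def G : Type := Z × P
noncomputable instance : MetricSpace G := inferInstanceAs (MetricSpace (Z × P))
def G.k (g : G) : ℤ := g.1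
def G.c (g : G) : ℤ → Γ := g.2
def mk (k : ℤ) (c : ℤ → Γ) : G := (k, c)
theorem G.ext' {g h : G} (a : g.k = h.k) (b : ∀ i, g.c i = h.c i) : g = h := Prod.ext a (funext b)

instance : Mul G := ⟨fun g h => mk (g.k + h.k) fun i => g.c (i + h.k) * h.c i⟩
instance : One G := ⟨mk 0 1⟩
instance : Inv G := ⟨fun g => mk (-g.k) fun i => (g.c (i - g.k))⁻¹⟩
@[simp] theorem mk_k (k c) : (mk k c).k = k := rfl
@[simp] theorem mk_c (k c) : (mk k c).c = c := rfl
@[simp] theorem mul_k (g h : G) : (g * h).k = g.k + h.k := rfl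
@[simp] theorem mul_c (g h : G) (i) : (g * h).c i = g.c (i + h.k) * h.c i := rfl
@[simp] theorem one_k : (1 : G).k = 0 := rfl
@[simp] theorem one_c (i) : (1 : G).c i = 1 := rfl
@[simp] theorem inv_k (g : G) : g⁻¹.k = -g.k := rfl
@[simp] theorem inv_c (g : G) (i) : g⁻¹.c i = (g.c (i - g.k))⁻¹ := rfl
instance : Group G := Group.ofLeftAxioms
  (fun a b c => G.ext' (by simp [add_assoc]) fun i => by simp [mul_assoc, add_assoc, add_comm b.k])
  (fun a => G.ext' (by simp) fun i => by simp) fun a => G.ext' (by simp) fun i => by simp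

theorem ev {X Y : Type} [TopologicalSpace X] [TopologicalSpace Y] {f : X → ℤ → Y} {g : X → G}
    (hf : Continuous f) (hg : Continuous g) (u : ℤ → ℤ) : Continuous fun x => f x (u (g x).k) :=
  (continuous_prod_of_discrete_right (f := fun p : (ℤ → Y) × Z => p.1 (u p.2)).2
    fun k => continuous_apply (u k)).comp (hf.prodMk (continuous_fst.comp hg))

theorem cc : Continuous G.c := continuous_snd

instance : IsTopologicalGroup G where
  continuous_mul := Continuous.prodMk
    ((continuous_of_discreteTopology (f := fun p : Z × Z => p.1 + p.2)).comp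
      ((continuous_fst.comp continuous_fst).prodMk (continuous_fst.comp continuous_snd)))
    (continuous_pi fun i => (continuous_of_discreteTopology (f := fun p : Γ × Γ => p.1 * p.2)).comp
      ((ev (cc.comp continuous_fst) continuous_snd (i + ·)).prodMk
        ((continuous_apply i).comp (cc.comp continuous_snd))))
  continuous_inv := Continuous.prodMk
    ((continuous_of_discreteTopology (f := fun p : Z => -p)).comp continuous_fst)
    (continuous_pi fun i => (continuous_of_discreteTopology (f := fun p : Γ => p⁻¹)).comp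
      (ev cc continuous_id (i - ·)))

theorem dg (g h : G) : dist g h = max (@dist Z _ g.k h.k) (@dist P _ g.c h.c) := rfl

theorem linv : LeftInv (inferInstance : MetricSpace G) := fun h g f => by
  show dist (h * g) (h * f) = dist g f
  rw [dg, dg]
  by_cases e : g.k = f.k
  · congr 1
    · simp [e]
    · refine tsum_congr fun i : ℤ => congrArg _ ?_
      simp only [mul_c, e]
      classical exact if_congr (mul_right_inj _) rfl rfl
  · rw [max_eq_left ((dp _ _).trans (dz2 e)), max_eq_left ((dp _ _).trans (dz2 (by simpa)))]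
    simp [dz]

theorem bound (l : G → ℝ) (l0 : ∀ g, 0 ≤ l g) (l1 : ∀ g h, l (g * h) ≤ l g + l h)
    (l2 : ∀ g, l g⁻¹ = l g) (l3 : l 1 = 0) (op : IsOpen {g : G | l g < 1}) :
    ∃ K : ℝ, ∀ g h, l (g⁻¹ * h) ≤ K * dist g h + K := by
  classical
  obtain ⟨I, u, u1, u2⟩ := isOpen_pi_iff.1 (op.preimage (f := mk 0)
    (Continuous.prodMk_right (Y := ℤ → Γ) (0 : Z))) 1 (l3.trans_lt one_pos)
  have s : ∀ c : ℤ → Γ, (∀ i ∈ I, c i = 1) → l (mk 0 c) < 1 := fun c h =>
    u2 fun i hi => h i hi ▸ (u1 i hi).2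
  obtain ⟨N, hN⟩ : ∃ N : ℤ, ∀ i ∈ I, i - N ∉ I := by
    obtain ⟨a, ha⟩ := I.bddAbove
    obtain ⟨b, hb⟩ := I.bddBelow
    exact ⟨a - b + 1, fun i hi k => by linarith [ha hi, hb k]⟩
  have t : ∀ k : ℤ, l (mk k 1) ≤ l (mk 1 1) * |(k : ℝ)| := fun k => by
    have : ∀ n : ℕ, l (mk n 1) ≤ l (mk 1 1) * n := fun n => by
      induction n with
      | zero => simp [show mk 0 1 = 1 from rfl, l3]
      | succ n ih =>
        have := l1 (mk n 1) (mk 1 1)
        rw [show mk n 1 * mk 1 1 = mk (n + 1 : ℕ) 1 from G.ext' (by simp) (by simp)] at this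
        push_cast at *
        linarith
    obtain ⟨n, rfl | rfl⟩ := k.eq_nat_or_neg
    · simpa using this n
    · rw [show mk (-n) 1 = (mk n 1)⁻¹ from G.ext' (by simp) (by simp), l2]
      simpa using this n
  refine ⟨l (mk 1 1) + 2 * l (mk N 1) + 2, fun g h => ?_⟩
  have e : g⁻¹ * h = mk (h.k - g.k) 1 * (mk 0 (fun i => if i ∈ I then 1 else (g⁻¹ * h).c i) *
      ((mk N 1)⁻¹ * (mk 0 (fun i => if i - N ∈ I then (g⁻¹ * h).c (i - N) else 1) * mk N 1))) :=
    G.ext' (by simp; ring) fun i => by by_cases q : i ∈ I <;> simp [q]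
  have a := l1 (mk (h.k - g.k) 1) _ |>.trans' (congrArg l e).le
  have b := (l1 _ _).trans (add_le_add (s (fun i => if i ∈ I then 1 else (g⁻¹ * h).c i)
    fun i hi => if_pos hi).le ((l1 (mk N 1)⁻¹ _).trans (add_le_add (l2 _).le ((l1 _ (mk N 1)).trans
    (add_le_add (s (fun i => if i - N ∈ I then (g⁻¹ * h).c (i - N) else 1)
      fun i hi => if_neg (hN i hi)).le le_rfl)))))
  have c := t (h.k - g.k)
  have d : 2 * |(g.k : ℝ) - h.k| ≤ dist g h := dz g.k h.k ▸ le_max_left _ _
  push_cast at c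
  rw [abs_sub_comm] at c
  nlinarith [l0 (mk 1 1), l0 (mk N 1), abs_nonneg ((g.k : ℝ) - h.k), dist_nonneg (x := g) (y := h)]

theorem maxi : Maximal (inferInstance : MetricSpace G) := ⟨linv, fun m hm li => by
  obtain ⟨K, hK⟩ := bound (m.dist 1) (fun g => dist_nonneg) (fun g h =>
    (m.dist_triangle 1 g _).trans_eq (congrArg _ (by simpa using li g 1 h)))
    (fun g => by simpa [dist_comm] using (li g 1 g⁻¹).symm) (m.dist_self 1)
    (hm ▸ isOpen_lt (by fun_prop) continuous_const)
  exact ⟨K, fun g h => by simpa [← li g⁻¹ g h] using hK g h⟩⟩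

def sw : ℕ × Fin 3 → ℕ × Fin 3
  | (n, 0) => (n / 2, if n % 2 = 0 then 1 else 2)
  | (n, 1) => (2 * n, 0)
  | (n, 2) => (2 * n + 1, 0)

theorem sw2 : Function.Involutive sw
  | (n, 0) => by
    by_cases h : n % 2 = 0 <;> simp [sw, h] <;> omega
  | (n, 1) => by simp [sw]
  | (n, 2) => by simp [sw, Nat.add_mod]; omega

def ρ : Γ →* Equiv.Perm (ℕ × Fin 3) :=
  FreeGroup.lift fun b => cond b sw2.toPerm ((Equiv.refl ℕ).prodCongr (Equiv.addRight 1))

theorem r0 (p) : ρ (FreeGroup.of false) p = (p.1, p.2 + 1) :=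
  DFunLike.congr_fun (FreeGroup.lift_apply_of (x := false)) p
theorem r1 (p) : ρ (FreeGroup.of true) p = sw p :=
  DFunLike.congr_fun (FreeGroup.lift_apply_of (x := true)) p

instance : MulAction G (ℤ → Ultrafilter (ℕ × Fin 3)) where
  smul g x i := (x (i - g.k)).map (ρ (g.c (i - g.k)))
  one_smul x := funext fun i => by
    show Ultrafilter.map _ _ = _
    simp
  mul_smul g h x := funext fun i => by
    show Ultrafilter.map _ _ = Ultrafilter.map _ (Ultrafilter.map _ _)
    rw [Ultrafilter.map_map, ← Equiv.Perm.coe_mul, ← map_mul]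
    simp [← sub_sub]

instance : ContinuousSMul G (ℤ → Ultrafilter (ℕ × Fin 3)) := ⟨continuous_pi fun i =>
  (continuous_prod_of_discrete_left (f := fun p : Γ × Ultrafilter (ℕ × Fin 3) => p.2.map (ρ p.1)).2
    fun γ => ultrafilterBasis_is_basis.continuous_iff.2 (by
      rintro _ ⟨s, rfl⟩
      exact ultrafilter_isOpen_basic (ρ γ ⁻¹' s))).comp
    ((ev (cc.comp continuous_fst) continuous_fst (i - ·)).prodMk
      (ev continuous_snd continuous_fst (i - ·)))⟩

theorem not_am : ¬ Amenable G := fun h => by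
  borelize (ℤ → Ultrafilter (ℕ × Fin 3))
  obtain ⟨μ, _, hμ⟩ := h (ℤ → Ultrafilter (ℕ × Fin 3))
  let A : Set (ℕ × Fin 3) → Set (ℤ → Ultrafilter (ℕ × Fin 3)) := fun s => {x | s ∈ x 0}
  have me : ∀ s, MeasurableSet (A s) := fun s =>
    ((ultrafilter_isOpen_basic s).preimage (f := fun x : ℤ → _ => x 0)
      (continuous_apply 0)).measurableSet
  have inv : ∀ γ s, μ (A (ρ γ ⁻¹' s)) = μ (A s) := fun γ s => hμ (mk 0 fun _ => γ) _ (me s)
  have ad : ∀ s t, Disjoint s t → μ (A (s ∪ t)) = μ (A s) + μ (A t) := fun s t d => by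
    rw [← measure_union (s₁ := A s) (s₂ := A t) (Set.disjoint_left.2 fun x a b => (x 0).empty_notMem
      (d.inter_eq ▸ Filter.inter_mem a b)) (me t)]
    exact congrArg μ (Set.ext fun x => Ultrafilter.union_mem_iff)
  let S : Fin 3 → Set (ℕ × Fin 3) := fun i => {p | p.2 = i}
  have d : ∀ i j, i ≠ j → Disjoint (S i) (S j) := fun i j e =>
    Set.disjoint_left.2 fun p a b => e (a.symm.trans b)
  have r : ∀ i, μ (A (S i)) = μ (A (S (i + 1))) := fun i => by
    rw [← inv (FreeGroup.of false) (S (i + 1))]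
    exact congrArg (μ <| A ·) (Set.ext fun p => by simp [S, r0])
  have e : μ (A (S 1 ∪ S 2)) = μ (A (S 0)) := by
    rw [← inv (FreeGroup.of true) (S 0)]
    refine congrArg (μ <| A ·) (Set.ext fun ⟨n, i⟩ => ?_)
    fin_cases i <;> simp [S, r1, sw]
    split_ifs <;> simp
  have u : μ (A (S 0 ∪ (S 1 ∪ S 2))) = 1 := by
    rw [← measure_univ (μ := μ)]
    refine congrArg μ (eq_univ_of_forall fun x => Filter.univ_mem' fun ⟨n, i⟩ => ?_)
    fin_cases i <;> simp [S]
  rw [ad _ _ ((d 0 1 (by decide)).union_right (d 0 2 (by decide))), e] at u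
  rw [ad _ _ (d 1 2 (by decide)), ← show μ (A (S 1)) = μ (A (S 2)) from r 1,
    ← show μ (A (S 0)) = μ (A (S 1)) from r 0] at e
  have := measure_ne_top μ (A (S 0))
  rw [e] at u
  rw [u] at e
  norm_num at e

theorem result : ∃ (G : Type) (_ : Group G) (d : MetricSpace G), IsTopologicalGroup G ∧
    PolishSpace G ∧ Maximal d ∧ (∀ r : ℝ, ∃ g : G, r < dist g 1) ∧ ¬ Amenable G ∧
    ∃ α : G →* (ℝ ≃ᵃⁱ[ℝ] ℝ), (∀ ξ, Continuous fun g => α g ξ) ∧
      ∃ a > (1 / 2 : ℝ), ∃ C > (0 : ℝ), ∀ g, dist g 1 ^ a / C - C ≤ ‖α g 0‖ := by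
  refine ⟨G, inferInstance, inferInstance, inferInstance,
    inferInstanceAs (PolishSpace (Z × (ℤ → Γ))), maxi, fun r => ?_, not_am,
    MonoidHom.mk' (fun g => AffineIsometryEquiv.constVAdd ℝ ℝ (g.k : ℝ)) fun g h => ?_,
    fun ξ => ?_, 1, by norm_num, 2, two_pos, fun g => ?_⟩
  · obtain ⟨n, hn⟩ := exists_nat_gt r
    refine ⟨mk n 1, lt_max_of_lt_left ?_⟩
    show r < @dist Z _ (n : ℤ) (0 : ℤ)
    simp [dz]
    linarith [n.cast_nonneg (α := ℝ)]
  · ext x
    simp [add_assoc]
  · exact (continuous_of_discreteTopology (f := fun k : Z => ((show ℤ from k : ℤ) : ℝ) + ξ)).comp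
      continuous_fst
  · have : dist g 1 ≤ 2 * |(g.k : ℝ)| + 2 := max_le (by
      show @dist Z _ g.k (0 : ℤ) ≤ _
      simp [dz]) ((dp _ _).trans (by simp))
    simp
    linarith

end Pool.Agent.Results.MP_5f76cf_al.Counter
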